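import Pool.Agent.TH862.SN.CycP

/-!
# Voevodsky's conjecture: homologically trivial cycles of dimension `p` on products

`𝒱` is a class of smooth projective geometrically irreducible varieties over the field `k` closed
under products (for the problem: all smooth projective varieties over `k = ℂ`), `C` the Chow groups
with rational coefficients (in the form of their formal properties, `IsChowProj`) and `H` a Weil
cohomology theory (`IsWeilProj`). The facts on cycles and varieties which are used:
* `HasResolutions C p`: every cycle of dimension `p` is a linear combination of classes `f_* [W]`,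
  `f : W ⟶ X` a morphism from a variety of dimension `p` (resolution of singularities);
* `KunnethIn H p`: the Kunneth standard conjecture for the varieties of dimension `p` (known for
  `p ≤ 2`: Murre);
* `HasSection H p j Y`: `H_j(Y)` is a direct summand of `H_j(E)` for some variety `E` of dimension
  `p`, by means of correspondences; for `j ≤ 1` this is known, for `j ≤ p` it follows from the
  Lefschetz standard conjecture for `Y`.

Theorem. Let `X` satisfy `HasSection H p j X` for `j < p`, and let `Y` satisfy `HasSection H p j Y`
for `j ≤ p`. If for all varieties `W` of dimension `p` the homologically trivial cycles of dimension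
`p` on `X × W` and on `Y × W` are smash-nilpotent, then so are those on `X × Y`.

Proof. Write a cycle `z` of dimension `p` on `X × Y` as a combination of `(a_i, b_i)_* [W_i]`, that
is of the correspondences `Γ_{b_i} ∘ Γ_{a_i}^t`, and decompose it with the Kunneth components
`π_m(W_i)`: `z = ∑_m Z_m`, `Z_m` the combination of the `Γ_{b_i} ∘ π_m(W_i) ∘ Γ_{a_i}^t`. As `z` is
homologically trivial, so is every `Z_m`. Let `m ≥ p`, `j = 2p - m`, and let `E`, `g`, `s` be as in
`HasSection H p j Y`. The cycle `Γ_{b_i} ∘ π_m(W_i) - g ∘ s ∘ Γ_{b_i} ∘ π_m(W_i)` of dimension `p`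
on `W_i × Y` is homologically trivial, because `Γ_{b_i} ∘ π_m(W_i)` has image in `H_j(Y)`; so it is
smash-nilpotent. Hence `Z_m` is `g ∘ (s ∘ Z_m)` up to smash-nilpotent cycles, and `s ∘ Z_m` is a
homologically trivial cycle of dimension `p` on `X × E`; so it is smash-nilpotent. If `m < p` one
exchanges the factors.
-/

open CategoryTheory AlgebraicGeometry

set_option autoImplicit false

universe u v w

namespace Pool.Agent.Results.MP_bf8edd_ag.CyclesOnProducts

open Pool.Agent.H914 Pool.Agent.W492.BB Pool.Agent.TH133 Pool.Agent.TH862.SN

/-- If for all varieties `W` of dimension `p` the homologically trivial cycles of dimension `p` on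
`X × W` and on `Y × W` are smash-nilpotent, then so are those on `X × Y`; it is assumed that
`H_j(X)`, `j < p`, and `H_j(Y)`, `j ≤ p`, are direct summands of the homology of varieties of
dimension `p`. -/
theorem result {k : Type u} [Field k] {𝒱 : VarClass k} (C : TheoryData.{u, v, 0} 𝒱 ℚ)
    [IsChowProj C] {K : Type w} [Field K] [CharZero K] (H : WeilTheoryData.{u, v, w} C K)
    [IsWeilProj H] (p : ℕ) (hC : HasResolutions C p) (hH : KunnethIn H p) (X Y : 𝒱.Obj)
    (hX : ∀ j, j < p → HasSection H p j X) (hY : ∀ j, j ≤ p → HasSection H p j Y)
    (hXW : ∀ W : 𝒱.Obj, W.dim = p → HomCycles H p (X.prod W))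
    (hYW : ∀ W : 𝒱.Obj, W.dim = p → HomCycles H p (Y.prod W)) : HomCycles H p (X.prod Y) :=
  cycIn_prod (I := smashIdeal C) hC hH hX hY hXW hYW

end Pool.Agent.Results.MP_bf8edd_ag.CyclesOnProducts
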