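import Pool.Agent.TH85.PD.Num

/-!
# Smash-nilpotence of homologically trivial cycles and powers of divisor classes

`𝒱` is a class of smooth projective geometrically irreducible varieties over the field `k` closed
under products (for the problem: all smooth projective varieties over `k = ℂ`), `C` the Chow groups
with rational coefficients (in the form of their formal properties, `IsChowProj`) and `H` a Weil
cohomology theory (`IsWeilProj`), for the problem singular cohomology.

`S` is a class of varieties with the formal properties `IsRich`: in the intended use `S` consists
of all rational varieties, or of all varieties. (Each `X` is a twisted direct summand of the blow-up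
of a projective space along `X`; the Chern character is an isomorphism from `K_0 ⊗ ℚ` to the Chow
ring, so that multiples of any class `z ∈ A^r(Y)`, `r > 0`, are up to the rank Chern characters of
vector bundles; projective bundles over rational varieties are rational.)

Theorem. All homologically trivial cycles on all varieties are smash-nilpotent if and only if
`ξ^n` is smash-nilpotent for each divisor class `ξ` on a variety `X` in `S` of dimension `2 n` such
that `cl(ξ)^n = 0` in cohomology. (So for line bundles `L` on `X` with `c_1(L)^n = 0` in
`H^(2n)(X, ℚ)` the question is whether the product of the `n`-th powers of the first Chern classes of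
`pr_1^* L, …, pr_m^* L` on `X^m` is rationally equivalent to zero for some `m`.)

Proof. Let `z ∈ A^r(Y)`, `Y ∈ S`, `r > 0`, be homologically trivial. Choose a vector bundle `V` on `Y` of
large rank `n` with Chern character `n + q z`, `q ≠ 0`. Its Chern classes are the terms of
`exp (γ z)`, `γ ≠ 0`. On `f : P = P(V) ⟶ Y`, with `ξ = c_1(O(1))`, the relation of Grothendieck shows
that `ξ^n` is a multiple of `f^* z`, so it is homologically trivial; and
`f_* (ξ^(n+r-1)) = - γ z`. Let `Q` have dimension `n + 1 - dim Y`. Then `P × Q` has dimension `2 n`,
so by the condition `ξ^n` is smash-nilpotent, and so is `z`. That the smash-nilpotent classes form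
an adequate equivalence relation is deduced from `MP_550f75_ag.PrimeRelations`.
-/

open CategoryTheory AlgebraicGeometry

set_option autoImplicit false

universe u v w

namespace Pool.Agent.Results.MP_bf8edd_ag.DivisorPowers

open Pool.Agent.H914 Pool.Agent.W492.BB Pool.Agent.TH133 Pool.Agent.TH829.Prime
  Pool.Agent.TH85.PD

/-- Let `S` be a class of varieties with the formal properties `IsRich` of the class of all rational
varieties. All homologically trivial cycles on all varieties are smash-nilpotent if and only if
`ξ^n` is smash-nilpotent for all divisor classes `ξ` on members of `S` of dimension `2 n` such that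
`cl(ξ)^n = 0`. -/
theorem result {k : Type u} [Field k] {𝒱 : VarClass k} (C : TheoryData.{u, v, 0} 𝒱 ℚ)
    [IsChowProj C] {K : Type w} [Field K] (H : WeilTheoryData.{u, v, w} C K) [IsWeilProj H]
    (S : Set 𝒱.Obj) (hS : IsRich C S) :
    (∀ (X : 𝒱.Obj) (i : ℕ) (z : C.A X), C.Deg i z → H.cl z = 0 → SmashNilpotent C z) ↔
    ∀ X ∈ S, ∀ (n : ℕ) (ξ : C.A X), X.dim = 2 * n → C.Deg 1 ξ → H.cl ξ ^ n = 0 →
      SmashNilpotent C (ξ ^ n) :=
  hom_smash_iff hS

end Pool.Agent.Results.MP_bf8edd_ag.DivisorPowers
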