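import Pool.Agent.TH862.SN.Gen

/-!
# Voevodsky's conjecture: homologically trivial `1`-cycles, products with curves

`𝒱` is a class of smooth projective geometrically irreducible varieties over the field `k` closed
under products (for the problem: all smooth projective varieties over `k = ℂ`), `C` the Chow groups
with rational coefficients (in the form of their formal properties, `IsChowProj`) and `H` a Weil
cohomology theory (`IsWeilProj`). The facts on cycles which are used:
* `HasCurveFacts C`: every `1`-cycle is a linear combination of classes `f_* [D]`, `f : D ⟶ X` a
  morphism from a curve; zero-cycles of degree zero are smash-nilpotent (Voevodsky, Voisin); the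
  modified diagonal of Gross and Schoen of a curve is smash-nilpotent (Kimura, Sebastian);
* `HasCurveSections H`: `H_1(Y)` is a direct summand of `H_1(E)` for some curve `E`, by means of
  correspondences (hyperplane sections and the reducibility theorem of Poincare).

Theorem. Let `S` be a class of varieties `X` such that, for all curves `D`, the homologically
trivial `1`-cycles on `X × D` are smash-nilpotent. Then every member of the smallest class which
contains `S`, is closed under products, and contains `X` if the zero-cycles on `X` are supported on
members of the class (in the sense of the decomposition of the diagonal of Bloch and Srinivas), has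
the same property; in particular its homologically trivial `1`-cycles are smash-nilpotent.

Proof. Let `I` be the ideal of smash-nilpotent classes. For two factors `X`, `Y` write a `1`-cycle
`z` on `X × Y` as a combination of classes `(f, g)_* [D]`. Modulo `I` its mixed part (obtained by
subtracting the parts coming from the factors) is the combination of the correspondences
`Γ_g ∘ π_1(D) ∘ Γ_f^t`. Let `E`, `g_E`, `s` be as in `HasCurveSections` for `Y`. The `1`-cycle
`Γ_g ∘ π_1(D) - g_E ∘ s ∘ Γ_g ∘ π_1(D)` on `D × Y` is homologically trivial, so in `I`. Hence the
mixed part is `g_E ∘ (s ∘ mixed part)` modulo `I`, and `s ∘ mixed part` is a homologically trivial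
`1`-cycle on `X × E` if `z` is homologically trivial; so it is in `I`. Products with a third factor
are treated with the modified diagonal: modulo `I` every `1`-cycle on a product of three varieties
is determined by its projections to two factors. If the zero-cycles on `X` are supported on
varieties `B i`, then in the decomposition of `z = Δ_X ∘ z`, `z` a `1`-cycle on `X × D`, the first
part is the image of `1`-cycles on the `B i × D`, the second part is the image of zero-cycles.
-/

open CategoryTheory AlgebraicGeometry

set_option autoImplicit false

universe u v w

namespace Pool.Agent.Results.MP_bf8edd_ag.ProductsWithCurves

open Pool.Agent.H914 Pool.Agent.W492.BB Pool.Agent.TH133 Pool.Agent.TH862.SN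

/-- Let `S` be a class of varieties `X` such that, for all curves `D`, the homologically trivial
`1`-cycles on `X × D` are smash-nilpotent. All members `X` of the class generated by `S` by means of
products and supports of zero-cycles have the same property, and their homologically trivial
`1`-cycles are smash-nilpotent. -/
theorem result {k : Type u} [Field k] {𝒱 : VarClass k} (C : TheoryData.{u, v, 0} 𝒱 ℚ)
    [IsChowProj C] {K : Type w} [Field K] [CharZero K] (H : WeilTheoryData.{u, v, w} C K)
    [IsWeilProj H] (hC : HasCurveFacts C) (hH : HasCurveSections H) (S : 𝒱.Obj → Prop)
    (hS : ∀ X, S X → HomOneCurves H X) (X : 𝒱.Obj) (hX : Generated C S X) :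
    HomOneCurves H X ∧ HomOne H X :=
  homOneCurves_generated hC hH hS hX

end Pool.Agent.Results.MP_bf8edd_ag.ProductsWithCurves
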